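import Pool.Agent.R640.WrFG

/-!
# Finitely generated groups with uncountable chains of quasi-parabolic structures (MP_484ff1_al)

For a group `A` with a strictly decreasing sequence `H 0 > H 1 > …` of subgroups and a set `S` of
natural numbers let `B_S` be the group of the finitely supported functions `f : ℤ → A` such that
`f (-j) ∈ H (w_S j)` for all `j ≥ 0`, where `w_S j = 2 k + 1` if `k = ⌊√j⌋ = ⟨n, i⟩` with `n ∈ S` and
`w_S j = 2 k` if `n ∉ S` (`⟨·,·⟩` is a pairing function). The structures given by `B_S ∪ {t}` on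
`A ≀ ℤ` are ordered exactly like the sets `S`: if `n ∈ S ∖ S'`, then `w_S > w_S'` holds on
arbitrarily long intervals, so that no shift of `B_S'` is contained in `B_S`.
-/

set_option autoImplicit false

namespace Pool.Agent.Results.MP_484ff1_al.BooleanChains

open Pool.Agent.R640 SemidirectProduct

open Classical in
/-- The weight function of a set of natural numbers. -/
noncomputable def ws (S : Set ℕ) (j : ℕ) : ℕ :=
  2 * Nat.sqrt j + if (Nat.unpair (Nat.sqrt j)).1 ∈ S then 1 else 0

theorem ws_mono (S : Set ℕ) : Monotone (ws S) := by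
  intro i j h
  have h1 : Nat.sqrt i ≤ Nat.sqrt j := Nat.sqrt_le_sqrt h
  unfold ws
  rcases h1.eq_or_lt with h2 | h2
  · rw [h2]
  · split_ifs <;> omega

theorem ws_mono_left {S T : Set ℕ} (h : S ≤ T) (j : ℕ) : ws S j ≤ ws T j := by
  unfold ws
  split_ifs with h1 h2
  · exact le_rfl
  · exact absurd (h h1) h2
  · omega
  · exact le_rfl

theorem ws_jump (S : Set ℕ) : ∃ j, ws S j < ws S (j + 1) := by
  refine ⟨0, ?_⟩
  have h0 : Nat.sqrt 0 = 0 := Nat.sqrt_zero
  have h1 : Nat.sqrt (0 + 1) = 1 := Nat.sqrt_one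
  unfold ws
  rw [h0, h1]
  split_ifs <;> omega

theorem ws_gap {S T : Set ℕ} (h : ¬ S ≤ T) (m : ℕ) :
    ∃ j, m ≤ j ∧ ws T j + 1 ≤ ws S (j - m) := by
  obtain ⟨n, hn, hn'⟩ := Set.not_subset.1 h
  have hk : m ≤ Nat.pair n m := Nat.right_le_pair n m
  have h1 : Nat.sqrt (Nat.pair n m * Nat.pair n m + m) = Nat.pair n m :=
    Nat.sqrt_add_eq _ (by omega)
  have h2 : Nat.sqrt (Nat.pair n m * Nat.pair n m) = Nat.pair n m := Nat.sqrt_eq _
  refine ⟨Nat.pair n m * Nat.pair n m + m, Nat.le_add_left _ _, ?_⟩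
  rw [Nat.add_sub_cancel]
  unfold ws
  rw [h1, h2, Nat.unpair_pair, if_pos hn, if_neg hn']

variable {A : Type} [Group A] {H : ℕ → Subgroup A} (hH : StrictAnti H)

/-- The quasi-parabolic generating set of a set of natural numbers. -/
noncomputable def gen (S : Set ℕ) : QPGen (WrS A) :=
  ⟨(asc hH (ws S) (ws_mono S)).X, by
    obtain ⟨j, hj⟩ := ws_jump S
    exact asc_qp hH _ j hj⟩

theorem gen_le {S T : Set ℕ} : gen hH S ≤ gen hH T ↔ S ≤ T := by
  constructor
  · rintro ⟨C, hC⟩
    by_contra h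
    obtain ⟨j, hj, hw⟩ := ws_gap h C
    obtain ⟨a, ha, ha'⟩ := exists_elt hH (ws T j)
    have h1 := asc_len hH (ws_mono S) a _ ha' j C hj hw
    have h2 := hC (inl (sg (-(j : ℤ)) a)) (by
      refine Or.inl ⟨_, ?_, rfl⟩
      intro i
      by_cases h : i = j
      · rw [h, sg_same]
        exact ha
      · rw [sg_ne (by omega)]
        exact (H _).one_mem)
    have h3 : 2 * C < len (asc hH (ws S) (ws_mono S)).X (inl (sg (-(j : ℤ)) a)) := h1
    have h4 : len (asc hH (ws S) (ws_mono S)).X (inl (sg (-(j : ℤ)) a)) ≤ C := h2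
    omega
  · intro h
    refine ⟨1, ?_⟩
    rintro y (⟨f, hf, rfl⟩ | hy)
    · apply len_le_one
      refine Or.inl ⟨f, ?_, rfl⟩
      intro j
      exact hH.antitone (ws_mono_left h j) (hf j)
    · apply len_le_one
      exact Or.inr hy

/-- The embedding of the lattice of all sets of natural numbers. -/
noncomputable def emb : Set ℕ ↪o Hqp (Wr A) :=
  (OrderEmbedding.ofMapLEIff (fun s => toAntisymmetrization (· ≤ ·) (gen hH s))
    fun s s' => by
      rw [toAntisymmetrization_le_toAntisymmetrization_iff]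
      exact gen_le hH : Set ℕ ↪o Antisymmetrization (QPGen (WrS A)) (· ≤ ·))

/-- The real line embeds in the lattice of sets of natural numbers (Dedekind cuts). -/
noncomputable def cut : ℝ ↪o Set ℕ :=
  OrderEmbedding.ofMapLEIff (fun x => {n : ℕ | ((Denumerable.eqv ℚ).symm n : ℝ) < x}) fun x y => by
    constructor
    · intro h
      by_contra hxy
      push Not at hxy
      obtain ⟨q, hq1, hq2⟩ := exists_rat_btwn hxy
      have h1 : (Denumerable.eqv ℚ q) ∈ {n : ℕ | ((Denumerable.eqv ℚ).symm n : ℝ) < x} := by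
        simpa using hq2
      have h2 := h h1
      simp only [Set.mem_ofPred_eq, Equiv.symm_apply_apply] at h2
      linarith
    · intro h n hn
      exact lt_of_lt_of_le hn h

/-- For every finitely generated group `A` which has a strictly decreasing sequence of subgroups
(for example `ℤ`), the group `A ≀ ℤ` is finitely generated, the poset of all sets of natural
numbers embeds in `H_qp (A ≀ ℤ)`, and `H_qp (A ≀ ℤ)` contains an uncountable chain, which is
order-isomorphic to the real line. In particular there is a finitely generated group `G` such that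
`H_qp G` contains an uncountable chain. -/
theorem result :
    (∀ (A : Type) [Group A], Group.FG A → (∃ H : ℕ → Subgroup A, StrictAnti H) →
      Group.FG (Wr A) ∧ Nonempty (Set ℕ ↪o Hqp (Wr A)) ∧
      ∃ f : ℝ ↪o Hqp (Wr A), IsChain (· ≤ ·) (Set.range f) ∧ ¬ (Set.range f).Countable) ∧
    ∃ (G : Type) (_ : Group G), Group.FG G ∧
      ∃ c : Set (Hqp G), IsChain (· ≤ ·) c ∧ ¬ c.Countable := by
  have main : ∀ (A : Type) [Group A], Group.FG A → (∃ H : ℕ → Subgroup A, StrictAnti H) →
      Group.FG (Wr A) ∧ Nonempty (Set ℕ ↪o Hqp (Wr A)) ∧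
      ∃ f : ℝ ↪o Hqp (Wr A), IsChain (· ≤ ·) (Set.range f) ∧ ¬ (Set.range f).Countable := by
    intro A _ hA hH
    obtain ⟨H, hH⟩ := hH
    have := hA
    exact ⟨wr_fg, ⟨emb hH⟩, cut.trans (emb hH), range_uncountable _⟩
  refine ⟨main, Wr (Multiplicative ℤ), inferInstance, ?_⟩
  obtain ⟨h1, -, f, h2⟩ := main (Multiplicative ℤ) inferInstance ⟨twoPow, twoPow_strictAnti⟩
  exact ⟨h1, Set.range f, h2⟩

end Pool.Agent.Results.MP_484ff1_al.BooleanChains
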